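import Pool.Agent.helper92.ISA.Spec2

set_option autoImplicit false

open Filter Topology

namespace Pool.Agent.ISA

open Pool.Agent.PB Pool.Agent.ISO

theorem CMQ_count {R : ℕ} (T : Finset (Fin R)) (t j : ℕ) (hj : j ≤ t) :
    (Finset.univ.filter fun K' : Finset (Fin R) => K'.card = t ∧ (T ∩ K').card = j).card =
      T.card.choose j * (R - T.card).choose (t - j) := by
  rw [← Finset.card_powersetCard j T]
  have h1 : (R - T.card).choose (t - j) = (Finset.powersetCard (t - j) Tᶜ).card := by
    rw [Finset.card_powersetCard, Finset.card_compl, Fintype.card_fin]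
  have h2 : ∀ K' : Finset (Fin R), (T ∩ K') ∪ (Tᶜ ∩ K') = K' := by
    intro K'
    rw [← Finset.union_inter_distrib_right, Finset.union_compl, Finset.univ_inter]
  have h3 : ∀ K' : Finset (Fin R), (T ∩ K').card + (Tᶜ ∩ K').card = K'.card := by
    intro K'
    rw [← Finset.card_union_of_disjoint, h2]
    rw [Finset.disjoint_left]
    intro a ha hb
    rw [Finset.mem_inter] at ha hb
    exact Finset.mem_compl.mp hb.1 ha.1
  rw [h1, ← Finset.card_product]
  apply Finset.card_nbij' (fun K' => (T ∩ K', Tᶜ ∩ K')) (fun p => p.1 ∪ p.2)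
  · intro K' hK'
    simp only [Finset.coe_filter, Set.mem_ofPred_eq, Finset.mem_univ, true_and] at hK'
    simp only [Finset.coe_product, Set.mem_prod, Finset.mem_coe, Finset.mem_powersetCard]
    refine ⟨⟨Finset.inter_subset_left, hK'.2⟩, Finset.inter_subset_left, ?_⟩
    have h4 := h3 K'
    omega
  · rintro ⟨A, B⟩ hp
    simp only [Finset.coe_product, Set.mem_prod, Finset.mem_coe, Finset.mem_powersetCard] at hp
    simp only [Finset.coe_filter, Set.mem_ofPred_eq, Finset.mem_univ, true_and]
    obtain ⟨⟨hA, hA2⟩, hB, hB2⟩ := hp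
    have hd : Disjoint A B := by
      rw [Finset.disjoint_left]
      intro a ha hb
      exact Finset.mem_compl.mp (hB hb) (hA ha)
    have hT : T ∩ (A ∪ B) = A := by
      ext a
      rw [Finset.mem_inter, Finset.mem_union]
      constructor
      · rintro ⟨h4, h5 | h5⟩
        · exact h5
        · exact absurd h4 (Finset.mem_compl.mp (hB h5))
      · intro h4
        exact ⟨hA h4, Or.inl h4⟩
    refine ⟨?_, ?_⟩
    · rw [Finset.card_union_of_disjoint hd, hA2, hB2]
      omega
    · rw [hT, hA2]
  · intro K' _
    exact h2 K'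
  · rintro ⟨A, B⟩ hp
    simp only [Finset.coe_product, Set.mem_prod, Finset.mem_coe, Finset.mem_powersetCard] at hp
    obtain ⟨⟨hA, hA2⟩, hB, hB2⟩ := hp
    simp only [Prod.mk.injEq]
    constructor
    · ext a
      rw [Finset.mem_inter, Finset.mem_union]
      constructor
      · rintro ⟨h4, h5 | h5⟩
        · exact h5
        · exact absurd h4 (Finset.mem_compl.mp (hB h5))
      · intro h4
        exact ⟨hA h4, Or.inl h4⟩
    · ext a
      rw [Finset.mem_inter, Finset.mem_union, Finset.mem_compl]
      constructor
      · rintro ⟨h4, h5 | h5⟩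
        · exact absurd (hA h5) h4
        · exact h5
      · intro h4
        exact ⟨Finset.mem_compl.mp (hB h4), Or.inr h4⟩

open Classical in
theorem CMQ_split {R : ℕ} (T : Finset (Fin R)) (A : Set ℕ) (t : ℕ) (c : ℝ) :
    (∑ K' : Finset (Fin R), if K'.card = t then (if (T ∩ K').card ∈ A then c else 0) else 0) =
      ∑ j ∈ Finset.range (t + 1), if j ∈ A then
        ((T.card.choose j : ℝ) * ((R - T.card).choose (t - j) : ℝ)) * c else 0 := by
  have h1 : ∀ K' : Finset (Fin R), (if K'.card = t then (if (T ∩ K').card ∈ A then c else 0) else 0) =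
      ∑ j ∈ Finset.range (t + 1), if j ∈ A then
        (if K'.card = t ∧ (T ∩ K').card = j then c else 0) else 0 := by
    intro K'
    by_cases hK : K'.card = t
    · rw [if_pos hK]
      have h2 : (T ∩ K').card ∈ Finset.range (t + 1) := by
        rw [Finset.mem_range]
        have h3 := Finset.card_le_card (Finset.inter_subset_right : T ∩ K' ⊆ K')
        omega
      rw [Finset.sum_eq_single_of_mem _ h2]
      · by_cases hA : (T ∩ K').card ∈ A
        · rw [if_pos hA, if_pos hA, if_pos ⟨hK, rfl⟩]
        · rw [if_neg hA, if_neg hA]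
      · intro j _ hj
        have h4 : (if K'.card = t ∧ (T ∩ K').card = j then c else 0) = 0 := if_neg (fun h => hj h.2.symm)
        rw [h4, ite_self]
    · rw [if_neg hK]
      symm
      apply Finset.sum_eq_zero
      intro j _
      have h4 : (if K'.card = t ∧ (T ∩ K').card = j then c else 0) = 0 := if_neg (fun h => hK h.1)
      rw [h4, ite_self]
  rw [Finset.sum_congr rfl fun K' _ => h1 K', Finset.sum_comm]
  refine Finset.sum_congr rfl fun j hj => ?_
  by_cases hA : j ∈ A
  · simp only [if_pos hA]
    rw [← Finset.sum_filter, Finset.sum_const, nsmul_eq_mul, CMQ_count T t j (by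
      rw [Finset.mem_range] at hj
      omega)]
    push_cast
    ring
  · simp only [if_neg hA, Finset.sum_const_zero]

open Classical in
theorem CMQ_prm (hP : PRM_stmt) {R' : ℕ} (K : Finset (Fin R')) (A : Set ℕ) (x : ℝ) :
    (∑ j ∈ Finset.range (K.card + 1), if j ∈ A then
      (K.card.choose j : ℝ) * x ^ j * (1 - x) ^ (K.card - j) else 0) =
      ∑ T : Finset (Fin R'), if (T ∩ K).card ∈ A then x ^ T.card * (1 - x) ^ (R' - T.card) else 0 := by
  have h1 : ∀ T : Finset (Fin R'), (if (T ∩ K).card ∈ A then x ^ T.card * (1 - x) ^ (R' - T.card) else 0) =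
      ∑ j ∈ Finset.range (K.card + 1), if j ∈ A then
        (if (T ∩ K).card = j then x ^ T.card * (1 - x) ^ (R' - T.card) else 0) else 0 := by
    intro T
    have h2 : (T ∩ K).card ∈ Finset.range (K.card + 1) := by
      rw [Finset.mem_range]
      have h3 := Finset.card_le_card (Finset.inter_subset_right : T ∩ K ⊆ K)
      omega
    rw [Finset.sum_eq_single_of_mem _ h2]
    · rw [if_pos rfl]
    · intro j _ hj
      have h4 : (if (T ∩ K).card = j then x ^ T.card * (1 - x) ^ (R' - T.card) else 0) = 0 :=
        if_neg (fun h => hj h.symm)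
      rw [h4, ite_self]
  rw [Finset.sum_congr rfl fun T _ => h1 T, Finset.sum_comm]
  refine Finset.sum_congr rfl fun j hj => ?_
  by_cases hA : j ∈ A
  · simp only [if_pos hA]
    rw [(hP R' K x).2 j]
  · simp only [if_neg hA, Finset.sum_const_zero]

theorem CMQ_proof (hH : HYP_stmt) (hP : PRM_stmt) : CMQ_stmt := by
  classical
  intro m A R R' q μ hR hmR hμ hq
  set w : ℕ → ℝ := fun t => ∑ K : Finset (Fin R'), if K.card = t then μ K else 0 with hw
  have hw0 : ∀ t, 0 ≤ w t := by
    intro t
    apply Finset.sum_nonneg
    intro K _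
    split_ifs
    · exact hμ.nonneg K
    · exact le_rfl
  have hsup : ∀ t, w t ≠ 0 → 1 ≤ t ∧ t ≤ m := by
    intro t ht
    obtain ⟨K, _, hK⟩ := Finset.exists_ne_zero_of_sum_ne_zero ht
    by_cases h1 : K.card = t
    · rw [if_pos h1] at hK
      have h2 := hμ.supp K hK
      rwa [h1] at h2
    · rw [if_neg h1] at hK
      exact absurd rfl hK
  have hch : ∀ t, t ≤ R → (0 : ℝ) < (R.choose t : ℝ) := by
    intro t ht
    exact_mod_cast Nat.choose_pos ht
  refine ⟨fun K' => w K'.card / (R.choose K'.card : ℝ), ⟨?_, ?_, ?_⟩, ?_⟩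
  · intro K'
    exact div_nonneg (hw0 _) (Nat.cast_nonneg _)
  · intro K' hK'
    apply hsup
    intro h
    apply hK'
    rw [h, zero_div]
  · have h1 := Finset.sum_powerset_apply_card (x := (Finset.univ : Finset (Fin R))) (fun t => w t / (R.choose t : ℝ))
    rw [Finset.powerset_univ, Finset.card_univ, Fintype.card_fin] at h1
    rw [h1]
    have h2 : ∀ t ∈ Finset.range (R + 1), R.choose t • (w t / (R.choose t : ℝ)) = w t := by
      intro t ht
      rw [Finset.mem_range] at ht
      rw [nsmul_eq_mul, mul_div_cancel₀ _ (hch t (by omega)).ne']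
    rw [Finset.sum_congr rfl h2, hw, Finset.sum_comm, ← hμ.sum]
    refine Finset.sum_congr rfl fun K _ => ?_
    by_cases hK : μ K = 0
    · rw [hK]
      simp
    · have h3 := hμ.supp K hK
      rw [Finset.sum_eq_single_of_mem K.card (by
        rw [Finset.mem_range]
        omega)]
      · rw [if_pos rfl]
      · intro j _ hj
        rw [if_neg (fun h => hj h.symm)]
  · intro T
    set τ := T.card with hτ
    have hτR : τ ≤ R := by
      have := Finset.card_le_univ T
      rwa [Fintype.card_fin] at this
    set x : ℝ := (τ : ℝ) / R with hx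
    have hR0 : (0 : ℝ) < R := by exact_mod_cast hR
    have hx0 : 0 ≤ x := by positivity
    have hx1 : x ≤ 1 := by
      rw [hx, div_le_one hR0]
      exact_mod_cast hτR
    set c : ℝ := ((R : ℝ) + 1) / ((R : ℝ) - m + 1) with hc
    have hmR' : (m : ℝ) ≤ R := by exact_mod_cast hmR
    have hc0 : 0 ≤ c := by
      apply div_nonneg
      · linarith
      · linarith
    rw [Finset.sum_filter]
    have h1 : ∀ K' : Finset (Fin R), (if (T ∩ K').card ∈ A then w K'.card / (R.choose K'.card : ℝ) else 0) =
        ∑ K : Finset (Fin R'), μ K * (if K'.card = K.card then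
          (if (T ∩ K').card ∈ A then 1 / (R.choose K.card : ℝ) else 0) else 0) := by
      intro K'
      by_cases hA : (T ∩ K').card ∈ A
      · rw [if_pos hA, hw]
        simp only [if_pos hA]
        rw [Finset.sum_div]
        refine Finset.sum_congr rfl fun K _ => ?_
        by_cases hK : K.card = K'.card
        · rw [if_pos hK, if_pos hK.symm, hK]
          ring
        · rw [if_neg hK, if_neg (fun h => hK h.symm)]
          simp
      · rw [if_neg hA]
        simp only [if_neg hA]
        simp
    rw [Finset.sum_congr rfl fun K' _ => h1 K', Finset.sum_comm]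
    have h2 : ∀ K : Finset (Fin R'), (∑ K' : Finset (Fin R), μ K * (if K'.card = K.card then
          (if (T ∩ K').card ∈ A then 1 / (R.choose K.card : ℝ) else 0) else 0)) ≤
        μ K * (c * ∑ S : Finset (Fin R'), if (S ∩ K).card ∈ A then x ^ S.card * (1 - x) ^ (R' - S.card) else 0) := by
      intro K
      by_cases hK : μ K = 0
      · rw [hK]
        simp
      · have h3 := hμ.supp K hK
        rw [← Finset.mul_sum, CMQ_split T A K.card (1 / (R.choose K.card : ℝ)), ← CMQ_prm hP K A x]
        apply mul_le_mul_of_nonneg_left _ (hμ.nonneg K)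
        rw [Finset.mul_sum]
        apply Finset.sum_le_sum
        intro j hj
        rw [Finset.mem_range] at hj
        by_cases hA : j ∈ A
        · rw [if_pos hA, if_pos hA]
          have h4 := hH R τ K.card j hR hτR (by omega) (by omega)
          have hKm : (K.card : ℝ) ≤ m := by exact_mod_cast h3.2
          have h5 : ((R : ℝ) + 1) / ((R : ℝ) - K.card + 1) ≤ c := by
            rw [hc]
            apply div_le_div_of_nonneg_left
            · linarith
            · linarith
            · linarith
          have h6 : 0 ≤ (K.card.choose j : ℝ) * x ^ j * (1 - x) ^ (K.card - j) := by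
            have : 0 ≤ 1 - x := by linarith
            positivity
          calc (τ.choose j : ℝ) * ((R - τ).choose (K.card - j) : ℝ) * (1 / (R.choose K.card : ℝ))
              = ((τ.choose j : ℝ) * ((R - τ).choose (K.card - j) : ℝ)) / (R.choose K.card : ℝ) := by ring
            _ ≤ _ := h4
            _ ≤ c * _ := mul_le_mul_of_nonneg_right h5 h6
        · rw [if_neg hA, if_neg hA, mul_zero]
    refine (Finset.sum_le_sum fun K _ => h2 K).trans ?_
    have h3 : (∑ K : Finset (Fin R'), μ K * (c * ∑ S : Finset (Fin R'),
        if (S ∩ K).card ∈ A then x ^ S.card * (1 - x) ^ (R' - S.card) else 0)) =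
        c * ∑ S : Finset (Fin R'), (x ^ S.card * (1 - x) ^ (R' - S.card)) *
          ∑ K : Finset (Fin R'), if (S ∩ K).card ∈ A then μ K else 0 := by
      rw [Finset.mul_sum]
      simp only [Finset.mul_sum]
      rw [Finset.sum_comm]
      refine Finset.sum_congr rfl fun S _ => ?_
      refine Finset.sum_congr rfl fun K _ => ?_
      by_cases hA : (S ∩ K).card ∈ A
      · rw [if_pos hA, if_pos hA]
        ring
      · rw [if_neg hA, if_neg hA]
        ring
    rw [h3]
    apply mul_le_mul_of_nonneg_left _ hc0
    calc (∑ S : Finset (Fin R'), (x ^ S.card * (1 - x) ^ (R' - S.card)) *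
          ∑ K : Finset (Fin R'), if (S ∩ K).card ∈ A then μ K else 0)
        ≤ ∑ S : Finset (Fin R'), (x ^ S.card * (1 - x) ^ (R' - S.card)) * q := by
          apply Finset.sum_le_sum
          intro S _
          apply mul_le_mul_of_nonneg_left
          · have h4 := hq S
            rw [Finset.sum_filter] at h4
            exact h4
          · have : 0 ≤ 1 - x := by linarith
            positivity
      _ = q := by
          rw [← Finset.sum_mul, (hP R' ∅ x).1, one_mul]

end Pool.Agent.ISA
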